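import Mathlib
import Pool.Agent.Helper722.LogPoly.Lower5

set_option autoImplicit false

open MeasureTheory ProbabilityTheory Filter Topology

namespace Pool.Agent.Results.MP_fb643f_pr.LogLaw

/-- The random polynomial `P_n(z) = ∑_{j=1}^n ξ_j / √j * z^j`.
The coefficients are numbered from `0` in Lean, so `ξ k` is the coefficient usually
called `ξ_{k+1}` and the sum over `k < n` runs over `j = k + 1 = 1, …, n`. -/
noncomputable def randPoly {Ω : Type*} (ξ : ℕ → Ω → ℝ) (n : ℕ) (ω : Ω) (z : ℂ) : ℂ :=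
  ∑ k ∈ Finset.range n, ((ξ k ω / Real.sqrt ((k : ℝ) + 1) : ℝ) : ℂ) * z ^ (k + 1)

/-- `M_n = max_{|z| = 1} |P_n(z)|`. -/
noncomputable def maxModulus {Ω : Type*} (ξ : ℕ → Ω → ℝ) (n : ℕ) (ω : Ω) : ℝ :=
  sSup ((fun z : ℂ => ‖randPoly ξ n ω z‖) '' {z : ℂ | ‖z‖ = 1})

variable {Ω : Type*}

lemma continuous_randPoly (ξ : ℕ → Ω → ℝ) (n : ℕ) (ω : Ω) :
    Continuous (fun z : ℂ => ‖randPoly ξ n ω z‖) := by
  unfold randPoly
  fun_prop

/-- The supremum in `maxModulus` is attained, so it is a maximum. -/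
lemma maxModulus_attained (ξ : ℕ → Ω → ℝ) (n : ℕ) (ω : Ω) :
    ∃ z : ℂ, ‖z‖ = 1 ∧ ‖randPoly ξ n ω z‖ = maxModulus ξ n ω ∧
      ∀ w : ℂ, ‖w‖ = 1 → ‖randPoly ξ n ω w‖ ≤ maxModulus ξ n ω := by
  have hcomp : IsCompact {z : ℂ | ‖z‖ = 1} := by
    have : {z : ℂ | ‖z‖ = 1} = Metric.sphere (0 : ℂ) 1 := by ext z; simp
    rw [this]; exact isCompact_sphere _ _
  have hne : {z : ℂ | ‖z‖ = 1}.Nonempty := ⟨1, by simp⟩
  obtain ⟨z, hz, hsup, hmax⟩ :=
    hcomp.exists_sSup_image_eq_and_ge hne (continuous_randPoly ξ n ω).continuousOn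
  refine ⟨z, hz, hsup.symm, fun w hw => ?_⟩
  have h1 : maxModulus ξ n ω = ‖randPoly ξ n ω z‖ := hsup
  rw [h1]
  exact hmax w hw

lemma randPoly_eq (ξ : ℕ → Ω → ℝ) (n : ℕ) (ω : Ω) (z : ℂ) :
    ∑ k ∈ Finset.range (n + 1), ((ξ (k - 1) ω / Real.sqrt k : ℝ) : ℂ) * z ^ k =
      randPoly ξ n ω z := by
  rw [Finset.sum_range_succ']
  unfold randPoly
  simp

/-- **Law of large numbers for the maximum modulus.** For i.i.d. real coefficients with mean `0`,
variance `1` and sub-exponential tails, `M_n / log n → 1` in probability. -/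
theorem result {Ω : Type*} [MeasurableSpace Ω] (P : Measure Ω) [IsProbabilityMeasure P]
    (ξ : ℕ → Ω → ℝ) (hmeas : ∀ k, Measurable (ξ k)) (hindep : iIndepFun ξ P)
    (hident : ∀ k, IdentDistrib (ξ k) (ξ 0) P P)
    (hmean : ∫ ω, ξ 0 ω ∂P = 0) (hvar : ∫ ω, (ξ 0 ω) ^ 2 ∂P = 1)
    (htail : ∃ c : ℝ, 0 < c ∧ Integrable (fun ω => Real.exp (c * |ξ 0 ω|)) P) :
    TendstoInMeasure P (fun (n : ℕ) (ω : Ω) => maxModulus ξ n ω / Real.log n) atTop
      (fun _ => (1 : ℝ)) := by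
  obtain ⟨c, hc, hint⟩ := htail
  obtain ⟨t₀, A, ht₀, hA, hX⟩ := Pool.Agent.Helper722.LogPoly.expCtl_of_iid ξ hmeas hindep hident
    hmean hvar c hc hint
  rw [tendstoInMeasure_iff_measureReal_norm]
  intro ε hε
  set δ : ℝ := min ε (1 / 2) with hδ
  have hδ0 : 0 < δ := by positivity
  have hδ1 : δ < 1 := lt_of_le_of_lt (min_le_right _ _) (by norm_num)
  have hδε : δ ≤ ε := min_le_left _ _
  have h1 := Pool.Agent.Helper722.LogPoly.upper_tail ht₀ hA hX δ hδ0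
  have h2 := Pool.Agent.Helper722.LogPoly.lower_tail ht₀ hA hX δ hδ0 hδ1
  have h3 := h1.add h2
  rw [add_zero] at h3
  refine squeeze_zero' (Filter.Eventually.of_forall fun n => measureReal_nonneg) ?_ h3
  filter_upwards [eventually_ge_atTop 2] with n hn
  have hlog : 0 < Real.log n := Real.log_pos (by exact_mod_cast hn)
  refine le_trans (measureReal_mono ?_ (measure_ne_top _ _)) (measureReal_union_le _ _)
  intro ω hω
  have hω' : ε ≤ ‖maxModulus ξ n ω / Real.log n - 1‖ := hω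
  rw [Real.norm_eq_abs] at hω'
  obtain ⟨z, hz, hzM, hzmax⟩ := maxModulus_attained ξ n ω
  rcases le_total 0 (maxModulus ξ n ω / Real.log n - 1) with h | h
  · left
    refine ⟨z, hz, ?_⟩
    rw [abs_of_nonneg h] at hω'
    simp only [randPoly_eq]
    rw [hzM]
    have h4 : 1 + δ ≤ maxModulus ξ n ω / Real.log n := by linarith
    rwa [le_div_iff₀ hlog] at h4
  · right
    intro w hw
    simp only [randPoly_eq]
    refine (hzmax w hw).trans ?_
    rw [abs_of_nonpos h] at hω'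
    have h4 : maxModulus ξ n ω / Real.log n ≤ 1 - δ := by linarith
    rwa [div_le_iff₀ hlog] at h4

end Pool.Agent.Results.MP_fb643f_pr.LogLaw
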